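import Mathlib

/-!
For a self-exciting process with intensity `λ((N_{t-}+γ)/(t+1))`, the probability of converging to
a given stable fixed point need not be monotone in the initial condition `γ`.
-/

set_option autoImplicit false

namespace Pool.Agent.Results.MP_cbf971_pr.NonMonotoneLimitProbability

open MeasureTheory ProbabilityTheory Filter Topology Set
open scoped ENNReal

noncomputable section

/-! ### The process -/

/-- The law of the driving noise: i.i.d. exponential variables of parameter 1. -/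
def noise : Measure (ℕ → ℝ) := Measure.infinitePi (fun _ => expMeasure 1)

/-- The time of the `n`-th point. Starting from `T_0 = 0`, the point `T_{n+1}` is the first time
`t ≥ T_n` at which the intensity integrated since the previous point,
`∫_{T_n}^t λ((n+γ)/(s+1)) ds`, reaches the exponential variable `e_n` (it is `∞` if this never
happens). Equivalently `P(T_{n+1} > t | T_1,...,T_n) = exp(-∫_{T_n}^t λ((n+γ)/(s+1)) ds)`: between
`T_n` and `T_{n+1}` there are `N_{s-} = n` points and the intensity is `λ((N_{s-}+γ)/(s+1))`. -/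
def pointTime (lam : ℝ → ℝ) (γ : ℝ) (e : ℕ → ℝ) : ℕ → ℝ≥0∞
  | 0 => 0
  | n + 1 => sInf {t : ℝ≥0∞ | pointTime lam γ e n ≤ t ∧ ENNReal.ofReal (e n) ≤
      ∫⁻ s in {s : ℝ | 0 ≤ s ∧ pointTime lam γ e n ≤ ENNReal.ofReal s ∧ ENNReal.ofReal s ≤ t},
        ENNReal.ofReal (lam ((n + γ) / (s + 1)))}

/-- `N_t`, the number of points in `[0,t]`. -/
def count (lam : ℝ → ℝ) (γ : ℝ) (e : ℕ → ℝ) (t : ℝ) : ℕ∞ :=
  {n : ℕ | 1 ≤ n ∧ pointTime lam γ e n ≤ ENNReal.ofReal t}.encard

/-- The probability that `N_t < ∞` for all `t` and `N_t / t → x`, for the process started from the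
initial condition `γ`. -/
def limitProb (lam : ℝ → ℝ) (x γ : ℝ) : ℝ≥0∞ :=
  noise {e | (∀ t : ℝ, 0 ≤ t → count lam γ e t ≠ ⊤) ∧
    Tendsto (fun t : ℝ => ((count lam γ e t).toNat : ℝ) / t) atTop (𝓝 x)}

/-- `x` is a fixed point of `λ : [0,∞) → [0,∞)`. -/
def IsFixedPt (lam : ℝ → ℝ) (x : ℝ) : Prop := 0 ≤ x ∧ lam x = x

/-- `x` is a stable fixed point. -/
def IsStablePt (lam : ℝ → ℝ) (x : ℝ) : Prop :=
  IsFixedPt lam x ∧ (∀ᶠ y in 𝓝[<] x, y < lam y) ∧ (∀ᶠ y in 𝓝[>] x, lam y < y)

/-! ### The noise -/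

instance : IsProbabilityMeasure (expMeasure 1) := isProbabilityMeasure_expMeasure one_pos

instance : IsProbabilityMeasure noise := by unfold noise; infer_instance

lemma exp_pos_ae : ∀ᵐ x ∂(expMeasure 1), 0 < x := by
  have h : expMeasure 1 (Iic 0) = 0 := by
    change (volume.withDensity (exponentialPDF 1)) (Iic 0) = 0
    rw [withDensity_apply _ measurableSet_Iic]
    have := lintegral_exponentialPDF_eq_antiDeriv (r := 1) one_pos 0
    rw [this]
    simp
  rw [ae_iff]
  have : {a : ℝ | ¬ 0 < a} = Iic 0 := by ext x; simp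
  rw [this, h]

lemma exp_mean : Integrable (fun x : ℝ => x) (expMeasure 1) ∧ ∫ x, x ∂(expMeasure 1) = 1 := by
  have hmeas : Measurable (exponentialPDF 1) := (measurable_exponentialPDFReal 1).ennreal_ofReal
  have hlt : ∀ᵐ x : ℝ, exponentialPDF 1 x < ⊤ := Eventually.of_forall (fun x => by
    unfold exponentialPDF; exact ENNReal.ofReal_lt_top)
  have hfun : ∀ x : ℝ, (exponentialPDF 1 x).toReal • x = (Ioi (0 : ℝ)).indicator (fun x => Real.exp (-x) * x) x := by
    intro x
    by_cases hx : 0 < x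
    · rw [indicator_of_mem (show x ∈ Ioi (0:ℝ) from hx), exponentialPDF_of_nonneg hx.le,
        ENNReal.toReal_ofReal (by positivity)]
      simp
    · rw [indicator_of_notMem (show x ∉ Ioi (0:ℝ) from hx)]
      rcases eq_or_lt_of_le (not_lt.mp hx) with h | h
      · rw [h]; simp
      · rw [exponentialPDF_of_neg h]; simp
  have hG : IntegrableOn (fun x : ℝ => Real.exp (-x) * x) (Ioi 0) := by
    have := Real.GammaIntegral_convergent (s := 2) (by norm_num)
    refine this.congr_fun (fun x hx => ?_) measurableSet_Ioi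
    norm_num
  have hval : ∫ x in Ioi (0 : ℝ), Real.exp (-x) * x = 1 := by
    have h := Real.Gamma_eq_integral (s := 2) (by norm_num)
    have h2 : Real.Gamma 2 = 1 := Real.Gamma_two
    rw [h2] at h
    rw [h]
    refine setIntegral_congr_fun measurableSet_Ioi (fun x hx => ?_)
    norm_num
  constructor
  · change Integrable _ (volume.withDensity (exponentialPDF 1))
    rw [integrable_withDensity_iff_integrable_smul' hmeas hlt]
    simp only [hfun]
    exact (integrable_indicator_iff measurableSet_Ioi).mpr hG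
  · change ∫ x, x ∂(volume.withDensity (exponentialPDF 1)) = 1
    rw [integral_withDensity_eq_integral_toReal_smul hmeas hlt]
    simp only [hfun]
    rw [integral_indicator measurableSet_Ioi, hval]

lemma noise_pos : ∀ᵐ e ∂noise, ∀ n, 0 < e n := by
  rw [ae_all_iff]
  intro n
  have h := (measurePreserving_eval_infinitePi (fun _ : ℕ => expMeasure 1) n)
  exact h.quasiMeasurePreserving.ae exp_pos_ae

/-- partial sums -/
def S (e : ℕ → ℝ) (n : ℕ) : ℝ := ∑ i ∈ Finset.range n, e i

lemma noise_lln : ∀ᵐ e ∂noise, Tendsto (fun n : ℕ => S e n / n) atTop (𝓝 1) := by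
  have hmap : ∀ i : ℕ, noise.map (fun e => e i) = expMeasure 1 := fun i =>
    (measurePreserving_eval_infinitePi (fun _ : ℕ => expMeasure 1) i).map_eq
  have hint : Integrable (fun e : ℕ → ℝ => e 0) noise := by
    have := (measurePreserving_eval_infinitePi (fun _ : ℕ => expMeasure 1) 0)
    exact this.integrable_comp_of_integrable exp_mean.1
  have hindep : iIndepFun (fun (i : ℕ) (e : ℕ → ℝ) => e i) noise :=
    iIndepFun_infinitePi (P := fun _ : ℕ => expMeasure 1) (X := fun _ x => x) (fun _ => measurable_id)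
  have h := strong_law_ae_real (μ := noise) (fun (i : ℕ) (e : ℕ → ℝ) => e i) hint
    (fun i j hij => hindep.indepFun hij)
    (fun i => ⟨(by fun_prop : Measurable (fun e : ℕ → ℝ => e i)).aemeasurable,
      (by fun_prop : Measurable (fun e : ℕ → ℝ => e 0)).aemeasurable, by
      rw [hmap i, hmap 0]⟩)
  have hmean : ∫ e, e 0 ∂noise = 1 := by
    rw [← exp_mean.2, ← hmap 0]
    exact (integral_map (by fun_prop : Measurable (fun e : ℕ → ℝ => e 0)).aemeasurable
      measurable_id.aestronglyMeasurable).symm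
  filter_upwards [h] with e he
  rw [hmean] at he
  exact he

/-! ### The intensity function -/

/-- the intensity function of the example -/
def lamH (H y : ℝ) : ℝ :=
  max 0 (min H (10 * H * (1 / 2 - y))) + max 0 (min H (10 * H * (y - 6 / 5)))

lemma lamH_cont (H : ℝ) : Continuous (lamH H) := by
  unfold lamH; fun_prop

lemma lamH_nonneg (H y : ℝ) : 0 ≤ lamH H y := by
  unfold lamH
  exact add_nonneg (le_max_left _ _) (le_max_left _ _)

section lamvals

variable {H : ℝ} (hH : 0 < H) {y : ℝ}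
include hH

lemma lamH_1 (hy : y ≤ 2 / 5) : lamH H y = H := by
  unfold lamH
  have h1 : H ≤ 10 * H * (1 / 2 - y) := by nlinarith
  have h2 : 10 * H * (y - 6 / 5) ≤ 0 := by nlinarith
  rw [min_eq_left h1, max_eq_right hH.le, max_eq_left ((min_le_right _ _).trans h2), add_zero]

lemma lamH_2 (h : 2 / 5 ≤ y) (hy : y ≤ 1 / 2) : lamH H y = 10 * H * (1 / 2 - y) := by
  unfold lamH
  have h1 : 10 * H * (1 / 2 - y) ≤ H := by nlinarith
  have h0 : 0 ≤ 10 * H * (1 / 2 - y) := by nlinarith
  have h2 : 10 * H * (y - 6 / 5) ≤ 0 := by nlinarith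
  rw [min_eq_right h1, max_eq_right h0, max_eq_left ((min_le_right _ _).trans h2), add_zero]

lemma lamH_3 (h : 1 / 2 ≤ y) (hy : y ≤ 6 / 5) : lamH H y = 0 := by
  unfold lamH
  have h1 : 10 * H * (1 / 2 - y) ≤ 0 := by nlinarith
  have h2 : 10 * H * (y - 6 / 5) ≤ 0 := by nlinarith
  rw [max_eq_left ((min_le_right _ _).trans h1), max_eq_left ((min_le_right _ _).trans h2), add_zero]

lemma lamH_4 (h : 6 / 5 ≤ y) (hy : y ≤ 13 / 10) : lamH H y = 10 * H * (y - 6 / 5) := by
  unfold lamH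
  have h1 : 10 * H * (1 / 2 - y) ≤ 0 := by nlinarith
  have h2 : 10 * H * (y - 6 / 5) ≤ H := by nlinarith
  have h0 : 0 ≤ 10 * H * (y - 6 / 5) := by nlinarith
  rw [max_eq_left ((min_le_right _ _).trans h1), min_eq_right h2, max_eq_right h0, zero_add]

lemma lamH_5 (h : 13 / 10 ≤ y) : lamH H y = H := by
  unfold lamH
  have h1 : 10 * H * (1 / 2 - y) ≤ 0 := by nlinarith
  have h2 : H ≤ 10 * H * (y - 6 / 5) := by nlinarith
  rw [max_eq_left ((min_le_right _ _).trans h1), min_eq_left h2, max_eq_right hH.le, zero_add]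

end lamvals

/-- the lower stable fixed point -/
def xlow (H : ℝ) : ℝ := 5 * H / (10 * H + 1)

/-- the unstable fixed point -/
def xmid (H : ℝ) : ℝ := 12 * H / (10 * H - 1)

lemma xlow_mem {H : ℝ} (hH : 10 ≤ H) : 2 / 5 < xlow H ∧ xlow H < 1 / 2 := by
  unfold xlow
  constructor
  · rw [div_lt_div_iff₀ (by norm_num) (by linarith)]; linarith
  · rw [div_lt_div_iff₀ (by linarith) (by norm_num)]; linarith

lemma xmid_mem {H : ℝ} (hH : 10 ≤ H) : 6 / 5 < xmid H ∧ xmid H < 13 / 10 := by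
  unfold xmid
  constructor
  · rw [div_lt_div_iff₀ (by norm_num) (by linarith)]; linarith
  · rw [div_lt_div_iff₀ (by linarith) (by norm_num)]; linarith

lemma fixed_iff {H : ℝ} (hH : 10 ≤ H) (x : ℝ) :
    IsFixedPt (lamH H) x ↔ x = xlow H ∨ x = xmid H ∨ x = H := by
  have hH0 : 0 < H := by linarith
  constructor
  · rintro ⟨h0, hx⟩
    rcases le_total x (2 / 5) with h1 | h1
    · rw [lamH_1 hH0 h1] at hx; linarith
    rcases le_total x (1 / 2) with h2 | h2
    · rw [lamH_2 hH0 h1 h2] at hx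
      left
      unfold xlow
      rw [eq_div_iff (by linarith)]
      linarith
    rcases le_total x (6 / 5) with h3 | h3
    · rw [lamH_3 hH0 h2 h3] at hx; linarith
    rcases le_total x (13 / 10) with h4 | h4
    · rw [lamH_4 hH0 h3 h4] at hx
      right; left
      unfold xmid
      rw [eq_div_iff (by linarith)]
      linarith
    · rw [lamH_5 hH0 h4] at hx
      right; right
      exact hx.symm
  · rintro (rfl | rfl | rfl)
    · obtain ⟨h1, h2⟩ := xlow_mem hH
      refine ⟨by linarith, ?_⟩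
      rw [lamH_2 hH0 h1.le h2.le]
      unfold xlow
      have : 10 * H + 1 ≠ 0 := by linarith
      field_simp
      ring
    · obtain ⟨h1, h2⟩ := xmid_mem hH
      refine ⟨by linarith, ?_⟩
      rw [lamH_4 hH0 h1.le h2.le]
      unfold xmid
      have : 10 * H - 1 ≠ 0 := by linarith
      field_simp
      ring
    · refine ⟨hH0.le, ?_⟩
      rw [lamH_5 hH0 (by linarith)]

lemma stable_iff {H : ℝ} (hH : 10 ≤ H) : {x | IsStablePt (lamH H) x} = {xlow H, H} := by
  have hH0 : 0 < H := by linarith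
  ext x
  simp only [mem_ofPred_eq, mem_insert_iff, mem_singleton_iff]
  constructor
  · rintro ⟨hfix, _, hright⟩
    rcases (fixed_iff hH x).mp hfix with h | h | h
    · left; exact h
    · exfalso
      obtain ⟨h1, h2⟩ := xmid_mem hH
      rw [← h] at h1 h2
      have h3 : ∀ᶠ y in 𝓝[>] x, y < 13 / 10 := nhdsWithin_le_nhds (Iio_mem_nhds h2)
      have h4 : ∀ᶠ y in 𝓝[>] x, x < y := eventually_nhdsWithin_of_forall (fun y hy => hy)
      obtain ⟨y, hy1, hy2, hy3⟩ := (hright.and (h3.and h4)).exists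
      rw [lamH_4 hH0 (by linarith) hy2.le] at hy1
      have hx := hfix.2
      rw [lamH_4 hH0 h1.le h2.le] at hx
      nlinarith
    · right; exact h
  · rintro (h | h)
    · refine ⟨(fixed_iff hH x).mpr (Or.inl h), ?_, ?_⟩
      · obtain ⟨h1, h2⟩ := xlow_mem hH
        rw [← h] at h1 h2
        have hx := ((fixed_iff hH x).mpr (Or.inl h)).2
        rw [lamH_2 hH0 h1.le h2.le] at hx
        have h3 : ∀ᶠ y in 𝓝[<] x, 2 / 5 < y := nhdsWithin_le_nhds (Ioi_mem_nhds h1)
        have h4 : ∀ᶠ y in 𝓝[<] x, y < x := eventually_nhdsWithin_of_forall (fun y hy => hy)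
        filter_upwards [h3, h4] with y hy1 hy2
        rw [lamH_2 hH0 hy1.le (by linarith)]
        nlinarith
      · obtain ⟨h1, h2⟩ := xlow_mem hH
        rw [← h] at h1 h2
        have hx := ((fixed_iff hH x).mpr (Or.inl h)).2
        rw [lamH_2 hH0 h1.le h2.le] at hx
        have h3 : ∀ᶠ y in 𝓝[>] x, y < 1 / 2 := nhdsWithin_le_nhds (Iio_mem_nhds h2)
        have h4 : ∀ᶠ y in 𝓝[>] x, x < y := eventually_nhdsWithin_of_forall (fun y hy => hy)
        filter_upwards [h3, h4] with y hy1 hy2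
        rw [lamH_2 hH0 (by linarith) hy1.le]
        nlinarith
    · subst h
      refine ⟨(fixed_iff hH x).mpr (Or.inr (Or.inr rfl)), ?_, ?_⟩
      · have h3 : ∀ᶠ y in 𝓝[<] x, 13 / 10 < y := nhdsWithin_le_nhds (Ioi_mem_nhds (by linarith))
        have h4 : ∀ᶠ y in 𝓝[<] x, y < x := eventually_nhdsWithin_of_forall (fun y hy => hy)
        filter_upwards [h3, h4] with y hy1 hy2
        rw [lamH_5 hH0 hy1.le]
        exact hy2
      · have h4 : ∀ᶠ y in 𝓝[>] x, x < y := eventually_nhdsWithin_of_forall (fun y hy => hy)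
        filter_upwards [h4] with y hy2
        rw [lamH_5 hH0 (by linarith)]
        exact hy2

/-! ### The dead zone: initial condition 1 -/

lemma pointTime_ge {H : ℝ} (hH : 0 < H) {e : ℕ → ℝ} (he : ∀ n, 0 < e n) (n : ℕ) :
    (n : ℝ≥0∞) ≤ pointTime (lamH H) 1 e n := by
  induction n with
  | zero => simp
  | succ n ih =>
    rw [pointTime]
    refine le_sInf (fun t ht => ?_)
    by_contra hlt
    push Not at hlt
    obtain ⟨_, h2⟩ := ht
    have h3 : ∫⁻ s in {s : ℝ | 0 ≤ s ∧ pointTime (lamH H) 1 e n ≤ ENNReal.ofReal s ∧ ENNReal.ofReal s ≤ t},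
        ENNReal.ofReal (lamH H ((n + 1) / (s + 1))) = 0 := by
      have hmeas : MeasurableSet {s : ℝ | 0 ≤ s ∧ pointTime (lamH H) 1 e n ≤ ENNReal.ofReal s ∧ ENNReal.ofReal s ≤ t} := by
        have e1 : MeasurableSet {s : ℝ | pointTime (lamH H) 1 e n ≤ ENNReal.ofReal s} :=
          measurableSet_le measurable_const ENNReal.measurable_ofReal
        have e2 : MeasurableSet {s : ℝ | ENNReal.ofReal s ≤ t} :=
          measurableSet_le ENNReal.measurable_ofReal measurable_const
        exact measurableSet_Ici.inter (e1.inter e2)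
      rw [setLIntegral_congr_fun hmeas (g := fun _ => 0), lintegral_zero]
      rintro s ⟨hs0, hs1, hs2⟩
      have h4 : (n : ℝ) ≤ s := by
        have := ih.trans hs1
        rw [← ENNReal.ofReal_natCast, ENNReal.ofReal_le_ofReal_iff hs0] at this
        exact this
      have h5 : s < n + 1 := by
        have := hs2.trans_lt hlt
        rw [← ENNReal.ofReal_natCast, ENNReal.ofReal_lt_ofReal_iff (by positivity)] at this
        push_cast at this
        exact this
      have h6 : (0 : ℝ) < s + 1 := by linarith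
      simp only
      rw [lamH_3 hH, ENNReal.ofReal_zero]
      · rw [div_le_div_iff₀ (by norm_num) h6]
        have : (0 : ℝ) ≤ n := Nat.cast_nonneg n
        linarith
      · rw [div_le_div_iff₀ h6 (by norm_num)]
        linarith
    rw [h3] at h2
    have h7 : e n ≤ 0 := by
      rw [nonpos_iff_eq_zero, ENNReal.ofReal_eq_zero] at h2
      exact h2
    exact absurd (he n) (not_lt.mpr h7)

lemma limitProb_dead {H : ℝ} (hH : 10 ≤ H) : limitProb (lamH H) H 1 = 0 := by
  have hH0 : 0 < H := by linarith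
  unfold limitProb
  rw [← nonpos_iff_eq_zero]
  have hsub : {e : ℕ → ℝ | (∀ t : ℝ, 0 ≤ t → count (lamH H) 1 e t ≠ ⊤) ∧
      Tendsto (fun t : ℝ => ((count (lamH H) 1 e t).toNat : ℝ) / t) atTop (𝓝 H)} ⊆ {e | ¬ ∀ n, 0 < e n} := by
    rintro e ⟨_, h2⟩ he
    have h3 : ∀ᶠ t : ℝ in atTop, ((count (lamH H) 1 e t).toNat : ℝ) / t ≤ 1 := by
      filter_upwards [eventually_gt_atTop (0 : ℝ)] with t ht
      rw [div_le_one ht]
      have h4 : count (lamH H) 1 e t ≤ (⌊t⌋₊ : ℕ∞) := by
        unfold count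
        have hss : {n : ℕ | 1 ≤ n ∧ pointTime (lamH H) 1 e n ≤ ENNReal.ofReal t} ⊆ (Finset.Icc 1 ⌊t⌋₊ : Finset ℕ) := by
          rintro n ⟨hn1, hn2⟩
          rw [Finset.coe_Icc, mem_Icc]
          refine ⟨hn1, Nat.le_floor ?_⟩
          have := (pointTime_ge hH0 he n).trans hn2
          rw [← ENNReal.ofReal_natCast, ENNReal.ofReal_le_ofReal_iff ht.le] at this
          exact this
        refine (encard_le_encard hss).trans ?_
        rw [encard_coe_eq_coe_finsetCard]
        simp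
      have h5 : (count (lamH H) 1 e t).toNat ≤ ⌊t⌋₊ := ENat.toNat_le_of_le_natCast h4
      calc ((count (lamH H) 1 e t).toNat : ℝ) ≤ (⌊t⌋₊ : ℝ) := by exact_mod_cast h5
        _ ≤ t := Nat.floor_le ht.le
    have := le_of_tendsto h2 h3
    linarith
  calc noise _ ≤ noise {e | ¬ ∀ n, 0 < e n} := measure_mono hsub
    _ = 0 := noise_pos

/-! ### The high rate regime -/

lemma S_succ (e : ℕ → ℝ) (n : ℕ) : S e (n + 1) = S e n + e n := by
  unfold S; rw [Finset.sum_range_succ]

lemma S_nonneg {e : ℕ → ℝ} (he : ∀ n, 0 < e n) (n : ℕ) : 0 ≤ S e n :=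
  Finset.sum_nonneg (fun i _ => (he i).le)

lemma S_mono {e : ℕ → ℝ} (he : ∀ n, 0 < e n) : Monotone (S e) :=
  monotone_nat_of_le_succ (fun n => by rw [S_succ]; linarith [he n])

lemma pointTime_eq {lam : ℝ → ℝ} {γ H : ℝ} (hH : 0 < H) {e : ℕ → ℝ} (he : ∀ n, 0 < e n)
    (hlam : ∀ n : ℕ, ∀ s : ℝ, S e n / H ≤ s → s ≤ S e (n + 1) / H → lam ((n + γ) / (s + 1)) = H)
    (n : ℕ) : pointTime lam γ e n = ENNReal.ofReal (S e n / H) := by
  induction n with
  | zero => simp [pointTime, S]
  | succ n ih =>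
    rw [pointTime, ih]
    have ha : 0 ≤ S e n / H := div_nonneg (S_nonneg he n) hH.le
    have hab : S e n / H < S e (n + 1) / H := by
      apply div_lt_div_of_pos_right _ hH
      rw [S_succ]; linarith [he n]
    have hb : 0 < S e (n + 1) / H := lt_of_le_of_lt ha hab
    have hregion : ∀ r : ℝ, 0 ≤ r → {s : ℝ | 0 ≤ s ∧ ENNReal.ofReal (S e n / H) ≤ ENNReal.ofReal s ∧
        ENNReal.ofReal s ≤ ENNReal.ofReal r} = Icc (S e n / H) r := by
      intro r hr
      ext s
      simp only [mem_ofPred_eq, mem_Icc]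
      constructor
      · rintro ⟨h0, h1, h2⟩
        rw [ENNReal.ofReal_le_ofReal_iff h0] at h1
        rw [ENNReal.ofReal_le_ofReal_iff hr] at h2
        exact ⟨h1, h2⟩
      · rintro ⟨h1, h2⟩
        exact ⟨ha.trans h1, ENNReal.ofReal_le_ofReal h1, ENNReal.ofReal_le_ofReal h2⟩
    have hint : ∀ r : ℝ, 0 ≤ r → r ≤ S e (n + 1) / H →
        ∫⁻ s in {s : ℝ | 0 ≤ s ∧ ENNReal.ofReal (S e n / H) ≤ ENNReal.ofReal s ∧
          ENNReal.ofReal s ≤ ENNReal.ofReal r}, ENNReal.ofReal (lam ((n + γ) / (s + 1))) =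
        ENNReal.ofReal (H * (r - S e n / H)) := by
      intro r hr hr2
      rw [hregion r hr, setLIntegral_congr_fun measurableSet_Icc (g := fun _ => ENNReal.ofReal H)]
      · rw [setLIntegral_const, Real.volume_Icc, ← ENNReal.ofReal_mul hH.le]
      · intro s hs
        simp only
        rw [hlam n s hs.1 (hs.2.trans hr2)]
    apply le_antisymm
    · apply sInf_le
      refine ⟨ENNReal.ofReal_le_ofReal hab.le, ?_⟩
      rw [hint _ hb.le le_rfl]
      apply ENNReal.ofReal_le_ofReal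
      rw [S_succ, add_div, add_sub_cancel_left]
      field_simp
      exact le_rfl
    · refine le_sInf (fun t ht => ?_)
      by_contra hlt
      push Not at hlt
      have htop : t ≠ ⊤ := ne_top_of_lt hlt
      obtain ⟨ht1, ht2⟩ := ht
      set r := t.toReal with hr
      have hr0 : 0 ≤ r := ENNReal.toReal_nonneg
      have htr : t = ENNReal.ofReal r := (ENNReal.ofReal_toReal htop).symm
      rw [htr] at ht1 ht2 hlt
      rw [ENNReal.ofReal_lt_ofReal_iff hb] at hlt
      rw [hint r hr0 hlt.le, ENNReal.ofReal_le_ofReal_iff'] at ht2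
      rcases ht2 with h | h
      · have : H * (r - S e n / H) < e n := by
          have h1 : H * (S e (n + 1) / H - S e n / H) = e n := by
            rw [S_succ, add_div, add_sub_cancel_left]
            field_simp
          rw [← h1]
          apply mul_lt_mul_of_pos_left _ hH
          linarith
        linarith
      · exact absurd (he n) (not_lt.mpr h)

lemma count_tendsto {S : ℕ → ℝ} (hmono : Monotone S) (hS : Tendsto (fun n : ℕ => S n / n) atTop (𝓝 1))
    {H : ℝ} (hH : 0 < H) :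
    (∀ t : ℝ, 0 ≤ t → {n : ℕ | 1 ≤ n ∧ S n ≤ H * t}.encard ≠ ⊤) ∧
    Tendsto (fun t : ℝ => (({n : ℕ | 1 ≤ n ∧ S n ≤ H * t}.encard).toNat : ℝ) / t) atTop (𝓝 H) := by
  -- two-sided bounds
  have hbd : ∀ ε : ℝ, 0 < ε → ∃ N0 : ℕ, 1 ≤ N0 ∧ ∀ n : ℕ, N0 ≤ n → (1 - ε) * n ≤ S n ∧ S n ≤ (1 + ε) * n := by
    intro ε hε
    have h := (Metric.tendsto_atTop.mp hS) ε hε
    obtain ⟨N, hN⟩ := h
    refine ⟨max N 1, le_max_right _ _, fun n hn => ?_⟩
    have hn1 : 1 ≤ n := (le_max_right _ _).trans hn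
    have hn0 : (0 : ℝ) < n := by exact_mod_cast hn1
    have h2 := hN n ((le_max_left _ _).trans hn)
    rw [Real.dist_eq, abs_lt] at h2
    obtain ⟨h3, h4⟩ := h2
    constructor
    · have : 1 - ε < S n / n := by linarith
      rw [lt_div_iff₀ hn0] at this
      exact this.le
    · have : S n / n < 1 + ε := by linarith
      rw [div_lt_iff₀ hn0] at this
      exact this.le
  have hup : ∀ ε : ℝ, 0 < ε → ε < 1 → ∃ N0 : ℕ, ∀ t : ℝ, 0 ≤ t →
      {n : ℕ | 1 ≤ n ∧ S n ≤ H * t}.encard ≠ ⊤ ∧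
      (({n : ℕ | 1 ≤ n ∧ S n ≤ H * t}.encard).toNat : ℝ) ≤ N0 + H * t / (1 - ε) := by
    intro ε hε hε1
    obtain ⟨N0, _, hN0⟩ := hbd ε hε
    refine ⟨N0, fun t ht => ?_⟩
    have h1 : 0 < 1 - ε := by linarith
    have hnn : 0 ≤ H * t / (1 - ε) := by positivity
    have hss : {n : ℕ | 1 ≤ n ∧ S n ≤ H * t} ⊆ (Finset.Icc 1 (N0 + ⌊H * t / (1 - ε)⌋₊) : Finset ℕ) := by
      rintro n ⟨hn1, hn2⟩
      rw [Finset.coe_Icc, mem_Icc]
      refine ⟨hn1, ?_⟩
      by_cases hn : n ≤ N0
      · omega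
      · push Not at hn
        have h3 := (hN0 n hn.le).1.trans hn2
        have h4 : (n : ℝ) ≤ H * t / (1 - ε) := by
          rw [le_div_iff₀ h1]; linarith
        have h5 := Nat.le_floor h4
        omega
    have hle := encard_le_encard hss
    rw [encard_coe_eq_coe_finsetCard, Nat.card_Icc] at hle
    have hfin : {n : ℕ | 1 ≤ n ∧ S n ≤ H * t}.encard ≠ ⊤ := ne_top_of_le_ne_top (ENat.natCast_ne_top _) hle
    refine ⟨hfin, ?_⟩
    have h6 := ENat.toNat_le_of_le_natCast hle
    have h7 : (({n : ℕ | 1 ≤ n ∧ S n ≤ H * t}.encard).toNat : ℝ) ≤ ((N0 + ⌊H * t / (1 - ε)⌋₊ + 1 - 1 : ℕ) : ℝ) := by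
      exact_mod_cast h6
    rw [Nat.add_sub_cancel] at h7
    push_cast at h7
    have h8 := Nat.floor_le hnn
    linarith
  refine ⟨?_, ?_⟩
  · obtain ⟨N0, hN0⟩ := hup (1 / 2) (by norm_num) (by norm_num)
    exact fun t ht => (hN0 t ht).1
  · rw [Metric.tendsto_atTop]
    intro δ hδ
    set ε := (δ / 2) / (H + δ / 2) with hε
    have hden : 0 < H + δ / 2 := by positivity
    have hε0 : 0 < ε := by positivity
    have hε1 : ε < 1 := by
      rw [hε, div_lt_one hden]; linarith
    have hu1 : H / (1 - ε) = H + δ / 2 := by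
      have : 1 - ε = H / (H + δ / 2) := by
        rw [hε]; field_simp; ring
      rw [this]
      field_simp
    have hl1 : H - δ / 2 ≤ H / (1 + ε) := by
      rw [le_div_iff₀ (by linarith)]
      have : ε * (H + δ / 2) = δ / 2 := by rw [hε]; field_simp
      nlinarith
    obtain ⟨N0, hN0⟩ := hup ε hε0 hε1
    obtain ⟨N1, hN11, hN1⟩ := hbd ε hε0
    refine ⟨max 1 (max (4 * (N0 + 2) / δ) ((N1 + 1) * (1 + ε) / H)), fun t ht => ?_⟩
    have ht1 : 1 ≤ t := (le_max_left _ _).trans ht
    have ht2 : 4 * (N0 + 2) / δ ≤ t := (le_max_left _ _).trans ((le_max_right _ _).trans ht)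
    have ht3 : ((N1 : ℝ) + 1) * (1 + ε) / H ≤ t := (le_max_right _ _).trans ((le_max_right _ _).trans ht)
    have ht0 : 0 < t := by linarith
    obtain ⟨hfin, hle⟩ := hN0 t ht0.le
    set C := {n : ℕ | 1 ≤ n ∧ S n ≤ H * t}.encard with hC
    have hNt : (N0 + 2 : ℝ) / t ≤ δ / 4 := by
      rw [div_le_div_iff₀ ht0 (by norm_num)]
      rw [div_le_iff₀ hδ] at ht2
      linarith
    -- lower bound
    have hlow : H * t / (1 + ε) - 1 ≤ (C.toNat : ℝ) := by
      set m := ⌊H * t / (1 + ε)⌋₊ with hm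
      have hnn : 0 ≤ H * t / (1 + ε) := by positivity
      have hmge : N1 ≤ m := by
        apply Nat.le_floor
        rw [le_div_iff₀ (by linarith)]
        rw [div_le_iff₀ hH] at ht3
        nlinarith
      have hSm : S m ≤ H * t := by
        have h1 := (hN1 m hmge).2
        have h2 : (m : ℝ) ≤ H * t / (1 + ε) := Nat.floor_le hnn
        rw [le_div_iff₀ (by linarith)] at h2
        linarith
      have hss : ((Finset.Icc 1 m : Finset ℕ) : Set ℕ) ⊆ {n : ℕ | 1 ≤ n ∧ S n ≤ H * t} := by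
        intro n hn
        rw [Finset.coe_Icc, mem_Icc] at hn
        exact ⟨hn.1, (hmono hn.2).trans hSm⟩
      have hle2 := encard_le_encard hss
      rw [encard_coe_eq_coe_finsetCard, Nat.card_Icc, Nat.add_sub_cancel] at hle2
      have h3 : m ≤ C.toNat := by
        have : ((C.toNat : ℕ) : ℕ∞) = C := ENat.natCast_toNat hfin
        rw [← hC, ← this] at hle2
        exact_mod_cast hle2
      have h4 : H * t / (1 + ε) < m + 1 := Nat.lt_floor_add_one _
      have h5 : (m : ℝ) ≤ (C.toNat : ℝ) := by exact_mod_cast h3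
      linarith
    rw [Real.dist_eq, abs_lt]
    constructor
    · have h1 : (H * t / (1 + ε) - 1) / t ≤ (C.toNat : ℝ) / t := div_le_div_of_nonneg_right hlow ht0.le
      have h2 : (H * t / (1 + ε) - 1) / t = H / (1 + ε) - 1 / t := by field_simp
      have h3 : 1 / t ≤ (N0 + 2 : ℝ) / t := by
        apply div_le_div_of_nonneg_right _ ht0.le
        have : (0 : ℝ) ≤ N0 := Nat.cast_nonneg _
        linarith
      rw [h2] at h1
      linarith
    · have h1 : (C.toNat : ℝ) / t ≤ (N0 + H * t / (1 - ε)) / t := div_le_div_of_nonneg_right hle ht0.le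
      have h2 : (N0 + H * t / (1 - ε)) / t = N0 / t + H / (1 - ε) := by field_simp
      have h3 : (N0 : ℝ) / t ≤ (N0 + 2 : ℝ) / t := by
        apply div_le_div_of_nonneg_right _ ht0.le
        linarith
      rw [h2, hu1] at h1
      linarith

/-- convergence to the upper fixed point on the good event -/
lemma good_event {γ H : ℝ} (hH : 0 < H) {e : ℕ → ℝ} (he : ∀ n, 0 < e n)
    (hlln : Tendsto (fun n : ℕ => S e n / n) atTop (𝓝 1))
    (hlam : ∀ n : ℕ, ∀ s : ℝ, S e n / H ≤ s → s ≤ S e (n + 1) / H → lamH H ((n + γ) / (s + 1)) = H) :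
    (∀ t : ℝ, 0 ≤ t → count (lamH H) γ e t ≠ ⊤) ∧
    Tendsto (fun t : ℝ => ((count (lamH H) γ e t).toNat : ℝ) / t) atTop (𝓝 H) := by
  have hc : ∀ t : ℝ, 0 ≤ t → count (lamH H) γ e t = {n : ℕ | 1 ≤ n ∧ S e n ≤ H * t}.encard := by
    intro t ht
    unfold count
    congr 1
    ext n
    simp only [mem_ofPred_eq]
    rw [pointTime_eq hH he hlam n, ENNReal.ofReal_le_ofReal_iff ht, div_le_iff₀ hH, mul_comm t H]
  obtain ⟨h1, h2⟩ := count_tendsto (S_mono he) hlln hH
  refine ⟨fun t ht => by rw [hc t ht]; exact h1 t ht, ?_⟩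
  refine h2.congr' ?_
  filter_upwards [eventually_ge_atTop (0 : ℝ)] with t ht
  rw [hc t ht]

/-- the good event -/
def W (K : ℕ) : Set (ℕ → ℝ) :=
  {e | (∀ n, 0 < e n) ∧ Tendsto (fun n : ℕ => S e n / n) atTop (𝓝 1) ∧ ∀ n, S e n ≤ K + 2 * n}

lemma exists_K : ∃ K : ℕ, noise (W K) ≠ 0 := by
  by_contra hcon
  push Not at hcon
  have h1 : noise (⋃ K, W K) = 0 := measure_iUnion_null hcon
  have h2 : ∀ᵐ e ∂noise, e ∈ ⋃ K, W K := by
    filter_upwards [noise_pos, noise_lln] with e he1 he2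
    have h := (Metric.tendsto_atTop.mp he2) 1 one_pos
    obtain ⟨N, hN⟩ := h
    obtain ⟨K, hK⟩ := exists_nat_gt (S e (max N 1))
    rw [mem_iUnion]
    refine ⟨K, he1, he2, fun n => ?_⟩
    by_cases hn : n ≤ max N 1
    · have h3 := S_mono he1 hn
      have : (0 : ℝ) ≤ n := Nat.cast_nonneg _
      linarith
    · push Not at hn
      have hn1 : 1 ≤ n := (le_max_right N 1).trans hn.le
      have hn0 : (0 : ℝ) < n := by exact_mod_cast hn1
      have h3 := hN n ((le_max_left N 1).trans hn.le)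
      rw [Real.dist_eq, abs_lt] at h3
      have h4 : S e n / n < 2 := by linarith
      rw [div_lt_iff₀ hn0] at h4
      have : (0 : ℝ) ≤ K := Nat.cast_nonneg _
      linarith
  have h3 : noise (⋃ K, W K)ᶜ = 0 := h2
  have h4 : noise univ ≤ noise (⋃ K, W K) + noise (⋃ K, W K)ᶜ := by
    rw [← union_compl_self (⋃ K, W K)]
    exact measure_union_le _ _
  rw [h1, h3, measure_univ] at h4
  simp at h4

lemma limitProb_pos_low {K : ℕ} (hK : noise (W K) ≠ 0) {H : ℝ} (hH : 40 * (K + 4) ≤ H) :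
    limitProb (lamH H) H (2 / 5) ≠ 0 := by
  have hK0 : (0 : ℝ) ≤ K := Nat.cast_nonneg _
  have hH0 : 0 < H := by linarith
  intro hzero
  apply hK
  rw [← nonpos_iff_eq_zero, ← hzero]
  apply measure_mono
  rintro e ⟨he, hlln, hbd⟩
  refine good_event hH0 he hlln (fun n s hs1 hs2 => ?_)
  have hs0 : 0 ≤ s := (div_nonneg (S_nonneg he n) hH0.le).trans hs1
  rcases Nat.eq_zero_or_pos n with hn | hn
  · subst hn
    apply lamH_1 hH0
    rw [div_le_iff₀ (by linarith)]
    push_cast
    linarith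
  · apply lamH_5 hH0
    rw [le_div_iff₀ (by linarith)]
    have hn1 : (1 : ℝ) ≤ n := by exact_mod_cast hn
    have h1 := hbd (n + 1)
    push_cast at h1
    have h2 : s ≤ (K + 2 * (n + 1)) / H := hs2.trans (div_le_div_of_nonneg_right h1 hH0.le)
    have h3 : ((K : ℝ) + 2 * (n + 1)) / H ≤ 1 / 40 + (n - 1) / 80 := by
      rw [div_le_iff₀ hH0]
      nlinarith
    linarith

lemma limitProb_pos_high {K : ℕ} (hK : noise (W K) ≠ 0) {H : ℝ} (hH : 40 * (K + 4) ≤ H) :
    limitProb (lamH H) H 2 ≠ 0 := by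
  have hK0 : (0 : ℝ) ≤ K := Nat.cast_nonneg _
  have hH0 : 0 < H := by linarith
  intro hzero
  apply hK
  rw [← nonpos_iff_eq_zero, ← hzero]
  apply measure_mono
  rintro e ⟨he, hlln, hbd⟩
  refine good_event hH0 he hlln (fun n s hs1 hs2 => ?_)
  have hs0 : 0 ≤ s := (div_nonneg (S_nonneg he n) hH0.le).trans hs1
  apply lamH_5 hH0
  rw [le_div_iff₀ (by linarith)]
  have hn1 : (0 : ℝ) ≤ n := Nat.cast_nonneg _
  have h1 := hbd (n + 1)
  push_cast at h1
  have h2 : s ≤ (K + 2 * (n + 1)) / H := hs2.trans (div_le_div_of_nonneg_right h1 hH0.le)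
  have h3 : ((K : ℝ) + 2 * (n + 1)) / H ≤ 1 / 40 + n / 80 := by
    rw [div_le_iff₀ hH0]
    nlinarith
  linarith

/-- There is a continuous `λ : [0,∞) → [0,∞)` with finitely many fixed points, exactly two of them
stable, `x₁ < x₂`, such that `γ ↦ p₂(γ)` is not monotone on `[0,∞)` (neither nondecreasing nor
nonincreasing). -/
theorem result : ∃ lam : ℝ → ℝ, Continuous lam ∧ (∀ y, 0 ≤ lam y) ∧
    {x | IsFixedPt lam x}.Finite ∧
    ∃ x₁ x₂ : ℝ, x₁ < x₂ ∧ {x | IsStablePt lam x} = {x₁, x₂} ∧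
      ¬ MonotoneOn (limitProb lam x₂) (Ici 0) ∧ ¬ AntitoneOn (limitProb lam x₂) (Ici 0) := by
  obtain ⟨K, hK⟩ := exists_K
  have hK0 : (0 : ℝ) ≤ K := Nat.cast_nonneg _
  set H : ℝ := 40 * (K + 4) with hHdef
  have hH : 10 ≤ H := by rw [hHdef]; linarith
  refine ⟨lamH H, lamH_cont H, lamH_nonneg H, ?_, xlow H, H, ?_, stable_iff hH, ?_, ?_⟩
  · have : {x | IsFixedPt (lamH H) x} = {xlow H, xmid H, H} := by
      ext x
      simp only [mem_ofPred_eq, mem_insert_iff, mem_singleton_iff]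
      exact fixed_iff hH x
    rw [this]
    exact Set.toFinite _
  · have := (xlow_mem hH).2
    linarith
  · intro hmono
    have h1 := hmono (show (2 / 5 : ℝ) ∈ Ici 0 by norm_num) (show (1 : ℝ) ∈ Ici 0 by norm_num) (by norm_num)
    rw [limitProb_dead hH] at h1
    exact limitProb_pos_low hK le_rfl (nonpos_iff_eq_zero.mp h1)
  · intro hanti
    have h1 := hanti (show (1 : ℝ) ∈ Ici 0 by norm_num) (show (2 : ℝ) ∈ Ici 0 by norm_num) (by norm_num)
    rw [limitProb_dead hH] at h1
    exact limitProb_pos_high hK le_rfl (nonpos_iff_eq_zero.mp h1)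

end

end Pool.Agent.Results.MP_cbf971_pr.NonMonotoneLimitProbability
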